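import Pool.Agent.H.MP_894ea6_lc.L.Main

/-! MP_894ea6_lc, Q1: the answer is negative. There is a non-smooth aperiodic countable Borel
equivalence relation which is not Borel bireducible with any relation in AE that admits a compact
action realization. -/

namespace Pool.Agent.Results.MP_894ea6_lc.NoCompactRealization

open Pool.Agent.CR

universe u v

theorem result : ∃ (X : Type) (_ : MeasurableSpace X) (E : X → X → Prop),
    InAE E ∧ ¬ IsSmooth E ∧ ∀ (Y : Type u) (_ : MeasurableSpace Y) (F : Y → Y → Prop),
      InAE F → BorelBireducible E F → ¬ HasCompactActionRealization.{u, v} F :=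
  main_thm

end Pool.Agent.Results.MP_894ea6_lc.NoCompactRealization
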